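import Pool.Agent.Leo.NonHyp

/-!
# MP_ba5c5f_al: the Coxeter groups that occur, and the groups for Euclidean orders
-/

namespace Pool.Agent.Results.MP_ba5c5f_al.CoxeterTypes

open Pool.Agent.Leo

/-- Let `M` be a Coxeter matrix of rank three. If its labels `p, q, l` are finite with
`1/p + 1/q + 1/l = 1`, then every Leonard triple in characteristic zero for which `rs`, `rt`, `st`
have the orders `p, q, l` has `p = q = l = 3` and its group is one of two explicit finite groups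
(the symmetric group on four letters, or a group of order 18; both occur), so it is not the
Coxeter group of `M`. For all other `M` and all `n ≥ 2` the Coxeter group of `M` is the group of
a Leonard triple over the complex numbers in dimension `n`, with Coxeter generators `r, s, t`. -/
theorem result {K : Type*} [Field K] [CharZero K] {V : Type*} [AddCommGroup V] [Module K V]
    {A B C : Module.End K V} {r s t : Module.End K V ≃ₗ[K] Module.End K V}
    (M : CoxeterMatrix (Fin 3)) :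
    (Euclid (M 0 1) (M 0 2) (M 1 2) → TripleOf A B C r s t (M 0 1) (M 0 2) (M 1 2) →
      ¬ IsCoxeterTriple r s t ∧ M 0 1 = 3 ∧ M 0 2 = 3 ∧ M 1 2 = 3 ∧
      (InSpan A B C ∧ SameWords r s t (Equiv.swap 0 1 : Equiv.Perm (Fin 4)) (Equiv.swap 0 2)
        (Equiv.swap 0 3) ∨
      ¬ InSpan A B C ∧ Module.finrank K V = 3 ∧
        SameWords r s t (Equiv.subLeft (0, 0) : Equiv.Perm (ZMod 3 × ZMod 3))
          (Equiv.subLeft (1, 0)) (Equiv.subLeft (0, 1)))) ∧
    (¬ Euclid (M 0 1) (M 0 2) (M 1 2) →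
      ∀ n : ℕ, 2 ≤ n → Occurs ℂ n (M 0 1) (M 0 2) (M 1 2) (fun _ cox => cox)) ∧
    Occurs ℂ 2 3 3 3 (fun span _ => span) ∧ Occurs ℂ 3 3 3 3 (fun span _ => ¬ span) := by
  refine ⟨?_, ?_, ?_, ?_⟩
  · rintro ⟨h01, h02, h12, hsum⟩ ⟨h, hr, hs, ht, o1, o2, o3⟩
    have n01 : M 0 1 ≠ 1 := M.off_diagonal 0 1 (by decide)
    have n02 : M 0 2 ≠ 1 := M.off_diagonal 0 2 (by decide)
    have n12 : M 1 2 ≠ 1 := M.off_diagonal 1 2 (by decide)
    obtain ⟨p1, p2, p3, hnc⟩ := euclidean h hr hs ht (by omega) (by omega) (by omega)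
      (by rw [o1, o2, o3]; exact hsum)
    refine ⟨hnc, by rw [← o1, p1], by rw [← o2, p2], by rw [← o3, p3], ?_⟩
    obtain ⟨d, a, b, c, hLT⟩ := h.bases
    have rr : r * r = 1 := hLT.pAB.anti_sq hr
    have ss : s * s = 1 := hLT.pAC.anti_sq hs
    have tt : t * t = 1 := hLT.pBC.anti_sq ht
    have q1 : (r * s) ^ 3 = 1 := by rw [← p1]; exact pow_orderOf_eq_one _
    have q2 : (r * t) ^ 3 = 1 := by rw [← p2]; exact pow_orderOf_eq_one _
    have q3 : (s * t) ^ 3 = 1 := by rw [← p3]; exact pow_orderOf_eq_one _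
    rcases relation_333' h hr hs ht p1 p2 p3 with ⟨g1, g2, g3⟩ | ⟨g1, g2, g3, g4, g5, g6, g7, g8⟩
    · left
      obtain ⟨e1, e2, e3, e4, e5, e6, e7, e8⟩ := perm_relation_one
      exact ⟨g1, words_of_relation_one rr ss tt q1 q2 q3 g2 g3 e1 e2 e3 e4 e5 e6 e7 e8⟩
    · right
      obtain ⟨e1, e2, e3, e4, e5, e6, e7, e8, e9, e10, e11, e12⟩ := perm_relation_two
      exact ⟨g1, g2, words_of_relation_two rr ss tt q1 q2 q3 g3 g4 g5 g6 g7 g8
        e1 e2 e3 e4 e5 e6 e7 e8 e9 e10 e11 e12⟩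
  · intro hM n hn
    obtain ⟨V, i1, i2, A, B, C, r, s, t, hf, h, hr, hs, ht, o1, o2, o3, hc⟩ :=
      realization M (fun a b c e => hM ⟨a, b, c, e⟩) n hn
    exact ⟨V, i1, i2, A, B, C, r, s, t, hf, ⟨h, hr, hs, ht, o1, o2, o3⟩, hc⟩
  · obtain ⟨A, B, C, r, s, t, h, hr, hs, ht, o1, o2, o3⟩ := example_two
    refine ⟨Fin 2 → ℂ, inferInstance, inferInstance, A, B, C, r, s, t, by simp,
      ⟨h, hr, hs, ht, o1, o2, o3⟩, ?_⟩
    rcases relation_333' h hr hs ht o1 o2 o3 with ⟨g1, -⟩ | ⟨-, g2, -⟩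
    · exact g1
    · simp at g2
  · obtain ⟨A, B, C, r, s, t, h, hr, hs, ht, o1, o2, o3, hsp⟩ := example_three
    exact ⟨Fin 3 → ℂ, inferInstance, inferInstance, A, B, C, r, s, t, by simp,
      ⟨h, hr, hs, ht, o1, o2, o3⟩, hsp⟩

end Pool.Agent.Results.MP_ba5c5f_al.CoxeterTypes
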