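import Pool.Agent.Leo.Crit

/-!
# MP_ba5c5f_al: a criterion for the group to be a Coxeter group
-/

namespace Pool.Agent.Results.MP_ba5c5f_al.Criterion

open Pool.Agent.Leo

/-- Let `A, B, C` be a Leonard triple in characteristic zero with `r ≠ s`, such that `[A, B]`
lies in the span of `1, A, B, C` or one of the orders of `rs`, `rt`, `st` is two. Suppose that
one of the orders is two or infinite, that two finite orders have greatest common divisor
`1, 2, 3, 4` or `6`, and that the traces (on `End V`) of those of `rs`, `rt`, `st` which have
infinite order are algebraically independent over `ℚ`. Then the group generated by `r, s, t` is a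
Coxeter group with Coxeter generators `r, s, t`. -/
theorem result {K : Type*} [Field K] [CharZero K] {V : Type*} [AddCommGroup V] [Module K V]
    {A B C : Module.End K V} {r s t : Module.End K V ≃ₗ[K] Module.End K V} {p q l : ℕ}
    (h : TripleOf A B C r s t p q l) (hrs : r ≠ s)
    (hK : InSpan A B C ∨ ∃ i, orderOf (prods r s t i) = 2)
    (h0 : ∃ i, orderOf (prods r s t i) = 0 ∨ orderOf (prods r s t i) = 2)
    (hg : ∀ i j, i ≠ j → orderOf (prods r s t i) ≠ 0 → orderOf (prods r s t j) ≠ 0 →
      Nat.gcd (orderOf (prods r s t i)) (orderOf (prods r s t j)) ∈ ({1, 2, 3, 4, 6} : Set ℕ))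
    (hI : AlgebraicIndependent ℚ
      (fun i : {i : Fin 3 // orderOf (prods r s t i) = 0} => trEnd (prods r s t i))) :
    IsCoxeterTriple r s t := by
  have e1 : ∀ i, orderOf (prods r s t i) = ords r s t i := by
    intro i
    fin_cases i <;> rfl
  have e2 : ∀ i, trEnd (prods r s t i) = trs r s t i := by
    intro i
    fin_cases i <;> rfl
  have e3 : ords r s t = fun i => orderOf (prods r s t i) := funext fun i => (e1 i).symm
  have hI' : AlgebraicIndependent ℚ (fun i : {i : Fin 3 // ords r s t i = 0} => trs r s t i) := by
    rw [e3]
    simpa only [e2] using hI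
  simp only [e1] at hK h0 hg
  refine criterion h.triple h.antiR h.antiS h.antiT hrs ?_ h0 hg hI'
  rcases hK with hK | ⟨i, hi⟩
  · exact Or.inl hK
  · right
    fin_cases i
    · exact Or.inl hi
    · exact Or.inr (Or.inl hi)
    · exact Or.inr (Or.inr hi)

end Pool.Agent.Results.MP_ba5c5f_al.Criterion
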