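import Pool.Agent.Leo.GenD

/-!
# MP_ba5c5f_al: the group of a generic Leonard triple is the universal Coxeter group of rank three
-/

namespace Pool.Agent.Results.MP_ba5c5f_al.Generic

open Pool.Agent.Leo

/-- Let `A, B, C` be a Leonard triple over a field of characteristic zero, with
antiautomorphisms `r, s, t`. If the traces of `rs`, `rt`, `st` and `(rs)²`, as linear maps of the
space `End V`, are algebraically independent over the rational numbers, then `rs`, `rt`, `st`
have infinite order and `⟨r, s, t⟩` is a Coxeter group with Coxeter generators `r, s, t`. -/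
theorem result {K : Type*} [Field K] [CharZero K] {V : Type*} [AddCommGroup V] [Module K V]
    {A B C : Module.End K V} {r s t : Module.End K V ≃ₗ[K] Module.End K V}
    (h : LeonardTriple A B C) (hr : IsAnti r A B) (hs : IsAnti s A C) (ht : IsAnti t B C)
    (hI : AlgebraicIndependent ℚ
      ![trEnd (r * s), trEnd (r * t), trEnd (s * t), trEnd ((r * s) ^ 2)]) :
    orderOf (r * s) = 0 ∧ orderOf (r * t) = 0 ∧ orderOf (s * t) = 0 ∧
      IsCoxeterTriple r s t :=
  generic_coxeter h hr hs ht hI

end Pool.Agent.Results.MP_ba5c5f_al.Generic
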