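import Pool.Agent.Leo.Struct

/-!
# MP_ba5c5f_al: structure theorem for the group generated by the three antiautomorphisms
-/

namespace Pool.Agent.Results.MP_ba5c5f_al.Structure

open Pool.Agent.Leo

/-- Let `A, B, C` be a Leonard triple on `V`, `2 ≤ dim V`, over a field whose characteristic is
not two and does not divide `dim V`, with antiautomorphisms `r, s, t`. Either `r = s = t`, or
`r, s, t` are distinct and one of two cases holds: (Krawtchouk type) the group is the group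
generated by three explicit reflections of `K³`; (other type) the orders of `rs`, `rt`, `st` are
described by four scalars and are at least `dim V` or infinite. -/
theorem result {K : Type*} [Field K] {V : Type*} [AddCommGroup V] [Module K V]
    (h2 : (2 : K) ≠ 0) (hdim : ((Module.finrank K V : ℕ) : K) ≠ 0)
    (hd : 2 ≤ Module.finrank K V)
    {A B C : Module.End K V} {r s t : Module.End K V ≃ₗ[K] Module.End K V}
    (h : LeonardTriple A B C) (hr : IsAnti r A B) (hs : IsAnti s A C) (ht : IsAnti t B C) :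
    (r = s ∧ s = t ∧ r * r = 1 ∧ r ≠ 1) ∨
    (r ≠ s ∧ r ≠ t ∧ s ≠ t ∧
      (∃ α β γ : K, α ≠ 0 ∧ β ≠ 0 ∧ γ ≠ 0 ∧
        C - r C = γ • (A * B - B * A) ∧ A - t A = α • (B * C - C * B) ∧
        B - s B = β • (C * A - A * C) ∧
        OrderRule A B C (r * s) (β * γ) ∧ OrderRule B A C (r * t) (α * γ) ∧
        OrderRule C A B (s * t) (α * β)) ∧
      ((A * B - B * A ∈ Submodule.span K ({1, A, B, C} : Set (Module.End K V)) ∧
        ∃ f f' g g' k k' ε₁ ε₂ ε₃ : K,
          r C = -C + (2 * f) • A + (2 * f') • B + ε₁ • 1 ∧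
          s B = -B + (2 * g) • C + (2 * g') • A + ε₂ • 1 ∧
          t A = -A + (2 * k) • B + (2 * k') • C + ε₃ • 1 ∧
          f * g * k = f' * g' * k' ∧ (cartM f f' g g' k k').det ≠ 0 ∧
          ∀ w : List (Fin 3), wordG r s t w = 1 ↔ wordM (cartM f f' g g' k k') w = 1) ∨
      (A * B - B * A ∉ Submodule.span K ({1, A, B, C} : Set (Module.End K V)) ∧
        3 ≤ Module.finrank K V ∧
        ∃ ω ρ σ τ : K,
          (∀ j, 1 ≤ j → 2 * j < Module.finrank K V → ω ^ j ≠ 1) ∧
          (∀ i, i + 1 < Module.finrank K V →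
            ω ^ i * ρ ≠ 1 ∧ ω ^ i * σ ≠ 1 ∧ ω ^ i * τ ≠ 1) ∧
          (∀ m : ℕ, ((r * s) ^ m = 1 ↔ ω ^ m = 1 ∧ ρ ^ m = 1) ∧
            ((r * t) ^ m = 1 ↔ ω ^ m = 1 ∧ σ ^ m = 1) ∧
            ((s * t) ^ m = 1 ↔ ω ^ m = 1 ∧ τ ^ m = 1)) ∧
          ∀ m : ℕ, 0 < m → ((r * s) ^ m = 1 ∨ (r * t) ^ m = 1 ∨ (s * t) ^ m = 1) →
            Module.finrank K V ≤ m))) := by
  rcases structure_general h2 hdim h hr hs ht hd with h1 | h1
  · exact Or.inl h1
  · obtain ⟨a1, a2, a3, α, β, γ, b1, b2, b3, c1, c2, c3, o1, o2, o3, h3⟩ := h1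
    refine Or.inr ⟨a1, a2, a3, ⟨α, β, γ, b1, b2, b3, c1, c2, c3, o1, o2, o3⟩, ?_⟩
    rcases h3 with ⟨h4, f, f', g, g', k, k', hk, hw⟩ | h4
    · left
      obtain ⟨ε₁, e1⟩ := hk.eC
      obtain ⟨ε₂, e2⟩ := hk.eB
      obtain ⟨ε₃, e3⟩ := hk.eA
      refine ⟨h4, f, f', g, g', k, k', ε₁, ε₂, ε₃, e1, e2, e3, hk.cyc, ?_, hw⟩
      have h8 : (8 : K) ≠ 0 := by
        have : (8 : K) = 2 * 2 * 2 := by norm_num
        rw [this]; exact mul_ne_zero (mul_ne_zero h2 h2) h2
      have e : (cartM f f' g g' k k').det =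
          8 * (1 - f' * g - g' * k - k' * f - 2 * (f * g * k)) := by
        have hc := hk.cyc
        rw [Matrix.det_fin_three]
        simp [cartM]
        linear_combination 8 * hc
      rw [e]
      exact mul_ne_zero h8 hk.det
    · right
      exact h4

end Pool.Agent.Results.MP_ba5c5f_al.Structure
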